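import Pool.Agent.H752.GM.Stubs

/-!
# Task M1 (project GM): a verifier for `MA` can be fooled
-/

set_option autoImplicit false

namespace Pool.Agent.H752.GM

open Pool.Agent.NPC Pool.Agent.H620R2.Gauge Finset H568R2 MeasureTheory

namespace Adv

variable {R K Y Z : Type} [Fintype R] [Fintype K] [Fintype Y] [Fintype Z] [DecidableEq R]
  [DecidableEq K] [DecidableEq Y] [DecidableEq Z]

/-- the functions of `Φ` which agree with `h` on `H` -/
def rs (Φ : Finset (R → K)) (H : Finset R) (h : R → K) : Finset (R → K) :=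
  Φ.filter fun φ => ∀ r ∈ H, φ r = h r

theorem mem_rs {Φ : Finset (R → K)} {H : Finset R} {h : R → K} {φ : R → K} :
    φ ∈ rs Φ H h ↔ φ ∈ Φ ∧ ∀ r ∈ H, φ r = h r := mem_filter

theorem rs_card_le (Φ : Finset (R → K)) (H : Finset R) (h : R → K) :
    (rs Φ H h).card ≤ Fintype.card K ^ (Fintype.card R - H.card) := by
  have h1 : rs Φ H h ⊆ Fintype.piFinset fun r => if r ∈ H then {h r} else univ := by
    intro φ hφ
    rw [Fintype.mem_piFinset]
    intro r
    have := (mem_filter.mp hφ).2
    by_cases hr : r ∈ H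
    · simp [hr, this r hr]
    · simp [hr]
  refine (card_le_card h1).trans ?_
  rw [Fintype.card_piFinset]
  have h2 : ∀ r : R, (if r ∈ H then ({h r} : Finset K) else univ).card =
      if r ∈ H then 1 else Fintype.card K := by
    intro r
    split_ifs <;> simp
  rw [prod_congr rfl fun r _ => h2 r, prod_ite, prod_const, prod_const, one_pow, one_mul]
  have h3 : (univ.filter fun r => r ∉ H).card = Fintype.card R - H.card := by
    have : (univ.filter fun r => r ∉ H) = Hᶜ := by ext v; simp
    rw [this, card_compl]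
  rw [h3]

/-- the increment argument -/
theorem exists_H (Φ : Finset (R → K)) (s t : ℕ) (hK : 2 * t ≤ Fintype.card K) (ht : 1 ≤ t)
    (hΦ : Fintype.card K ^ Fintype.card R ≤ Φ.card * 2 ^ s) :
    ∃ (H : Finset R) (h : R → K), H.card ≤ s ∧ (rs Φ H h).Nonempty ∧
      ∀ r ∉ H, ∀ w, t * ((rs Φ H h).filter fun φ => φ r = w).card < (rs Φ H h).card := by
  classical
  have hK0 : 0 < Fintype.card K := by omega
  obtain ⟨k0⟩ : Nonempty K := Fintype.card_pos_iff.mp hK0
  set S : Finset (Finset R) := univ.filter fun H => ∃ h : R → K,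
    2 ^ H.card * Fintype.card K ^ (Fintype.card R - H.card) ≤ (rs Φ H h).card * 2 ^ s with hS
  have hne : S.Nonempty := by
    refine ⟨∅, ?_⟩
    rw [hS, mem_filter]
    refine ⟨mem_univ _, fun _ => k0, ?_⟩
    have : rs Φ ∅ (fun _ => k0) = Φ := by
      unfold rs; simp
    rw [this]
    simpa using hΦ
  obtain ⟨H, hH, hmax⟩ := exists_max_image S card hne
  rw [hS, mem_filter] at hH
  obtain ⟨-, h, hh⟩ := hH
  have hpos : 0 < Fintype.card K ^ (Fintype.card R - H.card) := pow_pos hK0 _
  have hHs : H.card ≤ s := by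
    have h1 := Nat.mul_le_mul_right (2 ^ s) (rs_card_le Φ H h)
    have h2 : 2 ^ H.card * Fintype.card K ^ (Fintype.card R - H.card) ≤
        2 ^ s * Fintype.card K ^ (Fintype.card R - H.card) := by
      rw [mul_comm (2 ^ s)]; exact hh.trans h1
    have h3 := Nat.le_of_mul_le_mul_right h2 hpos
    exact (Nat.pow_le_pow_iff_right (by norm_num)).mp h3
  have hne2 : 0 < (rs Φ H h).card := by
    by_contra hcon
    have h0 : (rs Φ H h).card = 0 := by omega
    rw [h0, zero_mul] at hh
    have : 0 < 2 ^ H.card * Fintype.card K ^ (Fintype.card R - H.card) :=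
      mul_pos (pow_pos (by norm_num) _) hpos
    omega
  refine ⟨H, h, hHs, card_pos.mp hne2, ?_⟩
  intro r hr w
  set c := ((rs Φ H h).filter fun φ => φ r = w).card with hc
  -- maximality
  have h1 : (rs Φ (insert r H) (Function.update h r w)).card = c := by
    rw [hc]
    congr 1
    unfold rs
    ext φ
    simp only [mem_filter, mem_insert, forall_eq_or_imp, Function.update_self]
    constructor
    · rintro ⟨h2, h3, h4⟩
      refine ⟨⟨h2, fun r' hr' => ?_⟩, h3⟩
      have := h4 r' hr'
      rwa [Function.update_of_ne (fun e : r' = r => hr (e ▸ hr'))] at this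
    · rintro ⟨⟨h2, h3⟩, h4⟩
      refine ⟨h2, h4, fun r' hr' => ?_⟩
      rw [Function.update_of_ne (fun e : r' = r => hr (e ▸ hr'))]
      exact h3 r' hr'
  have hcard : (insert r H).card = H.card + 1 := card_insert_of_notMem hr
  have hHR : H.card + 1 ≤ Fintype.card R := by
    rw [← hcard]; exact card_le_univ _
  have h2 : ¬ (2 ^ (H.card + 1) * Fintype.card K ^ (Fintype.card R - (H.card + 1)) ≤ c * 2 ^ s) := by
    intro h3
    have h4 : insert r H ∈ S := by
      rw [hS, mem_filter]
      refine ⟨mem_univ _, Function.update h r w, ?_⟩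
      rw [h1, hcard]; exact h3
    have := hmax _ h4
    omega
  push Not at h2
  set e := Fintype.card R - (H.card + 1) with he
  have he2 : Fintype.card R - H.card = e + 1 := by omega
  rw [he2] at hh
  have h5 : 2 * t * (c * 2 ^ s) < 2 * ((rs Φ H h).card * 2 ^ s) := by
    calc 2 * t * (c * 2 ^ s) ≤ Fintype.card K * (c * 2 ^ s) := Nat.mul_le_mul_right _ hK
      _ < Fintype.card K * (2 ^ (H.card + 1) * Fintype.card K ^ e) :=
        Nat.mul_lt_mul_of_pos_left h2 hK0
      _ = 2 * (2 ^ H.card * Fintype.card K ^ (e + 1)) := by ring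
      _ ≤ _ := Nat.mul_le_mul_left _ hh
  have h6 : (2 * 2 ^ s) * (t * c) < (2 * 2 ^ s) * (rs Φ H h).card := by
    calc (2 * 2 ^ s) * (t * c) = 2 * t * (c * 2 ^ s) := by ring
      _ < _ := h5
      _ = _ := by ring
  exact Nat.lt_of_mul_lt_mul_left h6

/-- the one-element rows -/
def aph (φ : R → K) : R → K → Bool := fun r w => decide (w = φ r)

/-- the array with ones at `(r, h r)`, `r ∈ H` -/
def a0 (H : Finset R) (h : R → K) : R → K → Bool := fun r w => decide (r ∈ H ∧ w = h r)

/-- number of the accepting `z` -/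
def acc (F : Y → Z → (R → K → Bool) → Bool) (y : Y) (a : R → K → Bool) : ℕ :=
  (univ.filter fun z => F y z a = true).card

theorem main (F : Y → Z → (R → K → Bool) → Bool) (q : ℕ) (y : Y) (Φ : Finset (R → K))
    (hF : ∀ z a, ∃ Q : Finset (R × K), Q.card ≤ q ∧
      ∀ a' : R → K → Bool, (∀ e ∈ Q, a' e.1 e.2 = a e.1 e.2) → F y z a' = F y z a)
    (hΦ : ∀ φ ∈ Φ, 2 * Fintype.card Z ≤ 3 * acc F y (aph φ)) (H : Finset R) (h : R → K)
    (hne : (rs Φ H h).Nonempty)
    (hH : ∀ r ∉ H, ∀ w, (6 * q + 1) * ((rs Φ H h).filter fun φ => φ r = w).card <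
      (rs Φ H h).card) : Fintype.card Z ≤ 2 * acc F y (a0 H h) := by
  classical
  set Ψ := rs Φ H h with hΨ
  -- few `φ` change the value at `z`
  have key : ∀ z, 6 * (Ψ.filter fun φ => F y z (aph φ) ≠ F y z (a0 H h)).card ≤ Ψ.card := by
    intro z
    obtain ⟨Q, hQ1, hQ2⟩ := hF z (a0 H h)
    have h1 : (Ψ.filter fun φ => F y z (aph φ) ≠ F y z (a0 H h)) ⊆
        (Q.filter fun e => e.1 ∉ H).biUnion fun e => Ψ.filter fun φ => φ e.1 = e.2 := by
      intro φ hφ
      rw [mem_filter] at hφ
      by_contra hcon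
      apply hφ.2
      apply hQ2
      intro e he
      by_cases heH : e.1 ∈ H
      · have h2 : φ e.1 = h e.1 := (mem_rs.mp (hΨ ▸ hφ.1)).2 e.1 heH
        simp only [aph, a0, heH, true_and, h2]
      · have h3 : φ e.1 ≠ e.2 := by
          intro h4
          apply hcon
          rw [mem_biUnion]
          exact ⟨e, mem_filter.mpr ⟨he, heH⟩, mem_filter.mpr ⟨hφ.1, h4⟩⟩
        have h4 : ¬ e.2 = φ e.1 := fun h => h3 h.symm
        simp only [aph, a0, heH, false_and, h4, decide_false]
    have h2 := (card_le_card h1).trans card_biUnion_le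
    have h3 : (6 * q + 1) * ∑ e ∈ Q.filter (fun e => e.1 ∉ H), (Ψ.filter fun φ => φ e.1 = e.2).card ≤
        q * Ψ.card := by
      rw [mul_sum]
      calc ∑ e ∈ Q.filter (fun e => e.1 ∉ H), (6 * q + 1) * (Ψ.filter fun φ => φ e.1 = e.2).card
          ≤ ∑ e ∈ Q.filter (fun e => e.1 ∉ H), Ψ.card := by
            refine sum_le_sum fun e he => ?_
            exact (hH e.1 (mem_filter.mp he).2 e.2).le
        _ = (Q.filter (fun e => e.1 ∉ H)).card * Ψ.card := by rw [sum_const, smul_eq_mul]
        _ ≤ q * Ψ.card := Nat.mul_le_mul_right _ ((card_filter_le _ _).trans hQ1)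
    set T := ∑ e ∈ Q.filter (fun e => e.1 ∉ H), (Ψ.filter fun φ => φ e.1 = e.2).card with hT
    have h4 : 6 * T ≤ Ψ.card := by
      rcases Nat.eq_zero_or_pos q with hq | hq
      · rw [hq] at h3; omega
      · have h5 : q * (6 * T) ≤ q * Ψ.card := by nlinarith
        exact Nat.le_of_mul_le_mul_left h5 hq
    omega
  -- double counting
  have h1 : ∑ φ ∈ Ψ, acc F y (aph φ) ≤ Ψ.card * acc F y (a0 H h) +
      ∑ z : Z, (Ψ.filter fun φ => F y z (aph φ) ≠ F y z (a0 H h)).card := by
    have e1 : ∀ φ ∈ Ψ, acc F y (aph φ) ≤ acc F y (a0 H h) +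
        (univ.filter fun z => F y z (aph φ) ≠ F y z (a0 H h)).card := by
      intro φ _
      unfold acc
      refine le_trans (card_le_card ?_) (card_union_le _ _)
      intro z hz
      rw [mem_union, mem_filter, mem_filter]
      rw [mem_filter] at hz
      by_cases hzz : F y z (aph φ) = F y z (a0 H h)
      · left; exact ⟨mem_univ _, hzz ▸ hz.2⟩
      · right; exact ⟨mem_univ _, hzz⟩
    refine (sum_le_sum e1).trans (le_of_eq ?_)
    rw [sum_add_distrib, sum_const, smul_eq_mul]
    congr 1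
    simp only [card_filter]
    exact sum_comm
  have h2 : Ψ.card * (2 * Fintype.card Z) ≤ 3 * ∑ φ ∈ Ψ, acc F y (aph φ) := by
    rw [mul_sum, ← smul_eq_mul, ← sum_const]
    exact sum_le_sum fun φ hφ => hΦ φ (mem_rs.mp (hΨ ▸ hφ)).1
  have h3 : 6 * ∑ z : Z, (Ψ.filter fun φ => F y z (aph φ) ≠ F y z (a0 H h)).card ≤
      Fintype.card Z * Ψ.card := by
    rw [mul_sum, ← smul_eq_mul (Fintype.card Z), ← card_univ, ← sum_const]
    exact sum_le_sum fun z _ => key z
  have hpos : 0 < Ψ.card := card_pos.mpr hne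
  have h4 : Ψ.card * (3 * Fintype.card Z) ≤ Ψ.card * (6 * acc F y (a0 H h)) := by
    nlinarith
  have h5 := Nat.le_of_mul_le_mul_left h4 hpos
  omega

end Adv

open Adv in
theorem t_adv : St_adv := by
  classical
  intro R K Y Z _ _ _ _ _ F q s hF hY hR hK
  have hacc : ∀ y a, Nat.card {z : Z // F y z a = true} = acc F y a := by
    intro y a
    rw [Nat.card_eq_fintype_card, Fintype.card_subtype]
    rfl
  have hK0 : 0 < Fintype.card K := by omega
  obtain ⟨k0⟩ : Nonempty K := Fintype.card_pos_iff.mp hK0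
  by_cases hA : ∃ φ : R → K, ∀ y, 3 * acc F y (aph φ) < 2 * Fintype.card Z
  · obtain ⟨φ, hφ⟩ := hA
    refine ⟨aph φ, Or.inl ⟨fun r => ⟨φ r, by simp [aph]⟩, fun y => ?_⟩⟩
    rw [hacc]; exact hφ y
  push Not at hA
  choose g hg using hA
  -- pigeonhole
  obtain ⟨y, hy⟩ : ∃ y, Fintype.card K ^ Fintype.card R ≤
      (univ.filter fun φ => g φ = y).card * 2 ^ s := by
    by_contra hcon
    push Not at hcon
    have h1 : ∑ y : Y, (univ.filter fun φ => g φ = y).card * 2 ^ s <
        ∑ _y : Y, Fintype.card K ^ Fintype.card R :=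
      sum_lt_sum_of_nonempty ⟨g fun _ => k0, mem_univ _⟩ fun y _ => hcon y
    have h2 : ∑ y : Y, (univ.filter fun φ => g φ = y).card = Fintype.card K ^ Fintype.card R := by
      rw [← card_eq_sum_card_fiberwise (s := univ) (t := univ) (f := g) (fun _ _ => mem_univ _),
        card_univ, Fintype.card_fun]
    rw [← sum_mul, h2, sum_const, card_univ, smul_eq_mul, mul_comm] at h1
    exact absurd (lt_of_mul_lt_mul_right h1 (Nat.zero_le _)) (not_lt.mpr hY)
  obtain ⟨H, h, hHs, hne, hmax⟩ := exists_H _ s (6 * q + 1) hK (by omega) hy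
  have hmain := main F q y _ (fun z a => hF y z a) (fun φ hφ => by
    have := hg φ
    rwa [(mem_filter.mp hφ).2] at this) H h hne hmax
  refine ⟨a0 H h, Or.inr ⟨?_, y, ?_⟩⟩
  · have h1 : Nat.card {r : R // ∃ w, a0 H h r w = true} ≤ H.card := by
      rw [Nat.card_eq_fintype_card, Fintype.card_subtype]
      refine card_le_card fun r hr => ?_
      obtain ⟨w, hw⟩ := (mem_filter.mp hr).2
      exact (of_decide_eq_true hw).1
    omega
  · rw [hacc]
    have : 0 < Fintype.card Z := Fintype.card_pos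
    omega

end Pool.Agent.H752.GM
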